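import Mathlib

set_option autoImplicit false
open Set Filter Topology MeasureTheory

namespace Pool.Agent.H.MP_6b55e5_an

lemma comb {ι G : Type} [Fintype ι] [Fintype G] (box : G → ι → ℤ) (s : ℝ) (hs : 0 < s)
    (hG : 0 < Fintype.card G)
    (h : ∀ p, ((Finset.univ.image (box p)).card : ℝ) ≤ Fintype.card ι / s ^ 3) :
    ∃ (J : Finset ι) (U : Finset (ι × G)), (J.card : ℝ) ≤ Fintype.card ι / s ∧
      (U.card : ℝ) ≤ 2 * Fintype.card ι * Fintype.card G / s ∧
      ∀ i p, (i, p) ∈ U ∨ ∃ j ∈ J, box p j = box p i := by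
  classical
  set n : ℝ := (Fintype.card ι : ℝ) with hn
  set g : ℝ := (Fintype.card G : ℝ) with hg
  have g0 : 0 < g := by rw [hg]; exact_mod_cast hG
  let U : Finset ι → Finset (ι × G) := fun J =>
    Finset.univ.filter fun x => ∀ j ∈ J, box x.2 j ≠ box x.2 x.1
  obtain ⟨J, -, hJ⟩ := Finset.exists_min_image Finset.univ
    (fun J : Finset ι => s * g * J.card + (U J).card) ⟨∅, Finset.mem_univ _⟩
  refine ⟨J, U J, ?_, ?_, fun i p => ?_⟩
  · have h1 := hJ ∅ (Finset.mem_univ _)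
    have h2 : ((U ∅).card : ℝ) ≤ n * g := by
      rw [hn, hg, ← Nat.cast_mul, ← Fintype.card_prod]
      exact_mod_cast Finset.card_le_univ _
    have h3 : (0 : ℝ) ≤ (U J).card := by positivity
    rw [le_div_iff₀ hs]
    simp only [Finset.card_empty, Nat.cast_zero, mul_zero, zero_add] at h1
    nlinarith
  · let m : ι × G → ℝ := fun x => (Finset.univ.filter fun j => box x.2 j = box x.2 x.1).card
    have m0 : ∀ x, 0 < m x := fun x => by
      simp only [m]; exact_mod_cast Finset.card_pos.2 ⟨x.1, by simp⟩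
    have a1 : ∀ j, (((U J).filter fun x => box x.2 j = box x.2 x.1).card : ℝ) ≤ s * g := fun j => by
      have h1 := hJ (insert j J) (Finset.mem_univ _)
      have h2 : ((insert j J).card : ℝ) ≤ J.card + 1 := by exact_mod_cast Finset.card_insert_le _ _
      have h3 := Finset.card_filter_add_card_filter_not (s := U J)
        (fun x => box x.2 j = box x.2 x.1)
      have h4 : (U J).filter (fun x => ¬ box x.2 j = box x.2 x.1) = U (insert j J) := by
        ext x; simp [U, and_comm]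
      rw [h4] at h3
      have h5 : (((U J).filter fun x => box x.2 j = box x.2 x.1).card : ℝ) +
        (U (insert j J)).card = (U J).card := by exact_mod_cast h3
      nlinarith [mul_le_mul_of_nonneg_left h2 (mul_pos hs g0).le]
    have a2 : ∑ x ∈ U J, m x ≤ n * (s * g) := by
      calc ∑ x ∈ U J, m x
          = ∑ j, (((U J).filter fun x => box x.2 j = box x.2 x.1).card : ℝ) := by
            simp only [m, Finset.card_filter, Nat.cast_sum]
            exact Finset.sum_comm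
        _ ≤ ∑ _j : ι, s * g := Finset.sum_le_sum fun j _ => a1 j
        _ = n * (s * g) := by simp [hn]
    have a3 : ∑ x, 1 / m x ≤ g * (n / s ^ 3) := by
      rw [Fintype.sum_prod_type_right]
      calc ∑ p, ∑ i, 1 / m (i, p) ≤ ∑ _p : G, n / s ^ 3 := Finset.sum_le_sum fun p _ => by
            refine le_trans (le_of_eq ?_) (h p)
            rw [Finset.sum_comp (fun k => 1 / ((Finset.univ.filter fun j => box p j = k).card : ℝ))
              (box p), Finset.card_eq_sum_ones (Finset.univ.image _), Nat.cast_sum]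
            refine Finset.sum_congr rfl fun k hk => ?_
            obtain ⟨i, -, rfl⟩ := Finset.mem_image.1 hk
            rw [nsmul_eq_mul, Nat.cast_one]
            exact mul_one_div_cancel (m0 (i, p)).ne'
        _ = g * (n / s ^ 3) := by simp [hg]
    have a4 : ∑ x ∈ U J, 1 / m x ≤ ∑ x, 1 / m x :=
      Finset.sum_le_sum_of_subset_of_nonneg (Finset.subset_univ _) fun x _ _ =>
        (one_div_pos.2 (m0 x)).le
    have a5 : ((U J).card : ℝ) ≤ ∑ x ∈ U J, (m x / s ^ 2 + s ^ 2 * (1 / m x)) := by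
      rw [Finset.card_eq_sum_ones, Nat.cast_sum]
      refine Finset.sum_le_sum fun x _ => ?_
      have := m0 x
      rw [Nat.cast_one, ← sub_nonneg, show m x / s ^ 2 + s ^ 2 * (1 / m x) - 1 =
        ((m x - s ^ 2) ^ 2 + m x * s ^ 2) / (s ^ 2 * m x) by field_simp; ring]
      positivity
    rw [Finset.sum_add_distrib, ← Finset.sum_div, ← Finset.mul_sum] at a5
    calc ((U J).card : ℝ) ≤ n * (s * g) / s ^ 2 + s ^ 2 * (g * (n / s ^ 3)) := by
          refine a5.trans ?_
          gcongr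
          exact a4.trans a3
      _ = 2 * n * g / s := by field_simp; ring
  · by_contra hc
    push Not at hc
    exact hc.1 (by simpa [U] using hc.2)

def Cov (S : Set (ℝ × ℝ)) (c : ℝ) : Prop :=
  ∃ (κ : Type) (_ : Fintype κ) (a b w : κ → ℝ), (∀ k, 0 < w k) ∧ ∑ k, w k ≤ c ∧
    ∀ z ∈ S, ∃ k, |z.2 - a k * z.1 - b k| ≤ w k

lemma Cov.mono {S T : Set (ℝ × ℝ)} {c d : ℝ} (h : Cov T c) (hS : S ⊆ T) (hc : c ≤ d) : Cov S d := by
  obtain ⟨κ, _, a, b, w, h0, h1, h2⟩ := h
  exact ⟨κ, _, a, b, w, h0, h1.trans hc, fun z hz => h2 z (hS hz)⟩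

lemma Cov.single (a b w : ℝ) (hw : 0 < w) : Cov {z | |z.2 - a * z.1 - b| ≤ w} w :=
  ⟨Unit, inferInstance, fun _ => a, fun _ => b, fun _ => w, fun _ => hw, by simp,
    fun _ hz => ⟨(), hz⟩⟩

lemma Cov.biUnion {τ : Type} (s : Finset τ) (S : τ → Set (ℝ × ℝ)) (c : ℝ)
    (h : ∀ t ∈ s, Cov (S t) c) : Cov (⋃ t ∈ s, S t) (s.card * c) := by
  have h' : ∀ t : s, Cov (S t) c := fun t => h t t.2
  choose κ hκ a b w h0 h1 h2 using h'
  refine ⟨(t : s) × κ t, inferInstance, fun x => a x.1 x.2, fun x => b x.1 x.2, fun x => w x.1 x.2,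
    fun x => h0 _ _, ?_, fun z hz => ?_⟩
  · rw [Fintype.sum_sigma]
    refine (Finset.sum_le_sum fun t _ => h1 t).trans ?_
    simp
  · simp only [mem_iUnion] at hz
    obtain ⟨t, ht, hz⟩ := hz
    obtain ⟨k, hk⟩ := h2 ⟨t, ht⟩ z hz
    exact ⟨⟨⟨t, ht⟩, k⟩, hk⟩

lemma Cov.union {S T : Set (ℝ × ℝ)} {c d : ℝ} (h : Cov S c) (h' : Cov T d) :
    Cov (S ∪ T) (c + d) := by
  obtain ⟨κ, _, a, b, w, h0, h1, h2⟩ := h
  obtain ⟨κ', _, a', b', w', h0', h1', h2'⟩ := h'
  refine ⟨κ ⊕ κ', inferInstance, Sum.elim a a', Sum.elim b b', Sum.elim w w', ?_, ?_, ?_⟩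
  · rintro (k | k)
    exacts [h0 k, h0' k]
  · rw [Fintype.sum_sum_type]; exact add_le_add h1 h1'
  · rintro z (hz | hz)
    · obtain ⟨k, hk⟩ := h2 z hz; exact ⟨Sum.inl k, hk⟩
    · obtain ⟨k, hk⟩ := h2' z hz; exact ⟨Sum.inr k, hk⟩

lemma Cov.aff {S : Set (ℝ × ℝ)} {c : ℝ} (h : Cov S c) (α β r : ℝ) (hr : 0 < r) :
    Cov {z | ∃ y, (z.1, y) ∈ S ∧ z.2 = α * z.1 + β + r * y} (r * c) := by
  obtain ⟨κ, _, a, b, w, h0, h1, h2⟩ := h
  refine ⟨κ, inferInstance, fun k => α + r * a k, fun k => β + r * b k, fun k => r * w k,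
    fun k => mul_pos hr (h0 k), ?_, ?_⟩
  · rw [← Finset.mul_sum]; gcongr
  · rintro z ⟨y, hy, e⟩
    obtain ⟨k, hk⟩ := h2 _ hy
    refine ⟨k, ?_⟩
    rw [show z.2 - (α + r * a k) * z.1 - (β + r * b k) = r * (y - a k * z.1 - b k) by rw [e]; ring,
      abs_mul, abs_of_pos hr]
    exact mul_le_mul_of_nonneg_left hk hr.le

lemma Cov.count {S : Set (ℝ × ℝ)} {c : ℝ} (h : Cov S c) (x r : ℝ) (hr : 0 < r) (B : Finset ℤ)
    (hB : ∀ k ∈ B, ∀ y ∈ Ico (k * r) ((k + 1) * r), (x, y) ∈ S) : B.card * r ≤ 2 * c := by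
  obtain ⟨κ, _, a, b, w, h0, h1, h2⟩ := h
  have e1 : volume.real (⋃ k ∈ B, Ico (k * r) ((k + 1) * r)) = B.card * r := by
    rw [measureReal_biUnion_finset _ (fun _ _ => measurableSet_Ico) (fun _ _ => by simp)]
    · rw [Finset.sum_congr rfl (g := fun _ => r) fun k _ => by
        rw [Real.volume_real_Ico_of_le (by nlinarith)]; ring]
      simp
    · intro k _ l _ hkl
      refine Set.disjoint_left.2 fun y h1 h2 => hkl ?_
      have a1 : (k : ℝ) < l + 1 := lt_of_mul_lt_mul_right (h1.1.trans_lt h2.2) hr.le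
      have a2 : (l : ℝ) < k + 1 := lt_of_mul_lt_mul_right (h2.1.trans_lt h1.2) hr.le
      have b1 : k < l + 1 := by exact_mod_cast a1
      have b2 : l < k + 1 := by exact_mod_cast a2
      omega
  rw [← e1]
  calc _ ≤ volume.real (⋃ k, Icc (a k * x + b k - w k) (a k * x + b k + w k)) := by
        refine measureReal_mono (fun y hy => ?_)
          ((isCompact_iUnion fun _ => isCompact_Icc).measure_lt_top.ne)
        simp only [mem_iUnion] at hy ⊢
        obtain ⟨k, hk, hy⟩ := hy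
        obtain ⟨j, hj⟩ := h2 _ (hB k hk y hy)
        rw [abs_le] at hj
        exact ⟨j, by linarith [hj.1], by linarith [hj.2]⟩
    _ ≤ ∑ k, volume.real (Icc (a k * x + b k - w k) (a k * x + b k + w k)) :=
        measureReal_iUnion_fintype_le _
    _ = ∑ k, 2 * w k := Finset.sum_congr rfl fun k _ => by
        rw [Real.volume_real_Icc_of_le (by linarith [h0 k])]; ring
    _ ≤ 2 * c := by rw [← Finset.mul_sum]; linarith

end Pool.Agent.H.MP_6b55e5_an
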