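import Pool.Agent.H.MP_6b55e5_an.A

set_option autoImplicit false
open Set Filter Topology MeasureTheory

namespace Pool.Agent.H.MP_6b55e5_an

structure Sch where
  ι : Type
  [fin : Fintype ι]
  α : ι → ℝ
  β : ι → ℝ

attribute [instance] Sch.fin

noncomputable def Sch.r (σ : Sch) : ℝ := 1 / Fintype.card σ.ι

def Sch.op (σ : Sch) (K : Set (ℝ × ℝ)) : Set (ℝ × ℝ) :=
  ⋃ i, (fun k : ℝ × ℝ => (σ.α i + σ.r * k.1, σ.β i + σ.r * k.2)) '' K

def Q : Set (ℝ × ℝ) := Icc 0 1 ×ˢ Icc (-2) 2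

def Full (K : Set (ℝ × ℝ)) : Prop := ∀ a ∈ Icc (0 : ℝ) 1, ∃ b, (a, b) ∈ K

def pts (K : Set (ℝ × ℝ)) (X : Set ℝ) : Set (ℝ × ℝ) := {z | z.1 ∈ X ∧ ∃ l ∈ K, z.2 = l.1 * z.1 + l.2}

def Sch.Valid (σ : Sch) : Prop :=
  2 ≤ Fintype.card σ.ι ∧ σ.op Q ⊆ Q ∧ ∀ K, Full K → Full (σ.op K)

noncomputable def Sch.comp (σ τ : Sch) : Sch :=
  ⟨σ.ι × τ.ι, fun x => σ.α x.1 + σ.r * τ.α x.2, fun x => σ.β x.1 + σ.r * τ.β x.2⟩

lemma op_comp (σ τ : Sch) (K : Set (ℝ × ℝ)) : (σ.comp τ).op K = σ.op (τ.op K) := by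
  have e : (σ.comp τ).r = σ.r * τ.r := by
    simp [Sch.r, Sch.comp, mul_comm]
  simp only [Sch.op, image_iUnion, image_image, e]
  simp only [Sch.comp, iUnion_prod']
  refine iUnion_congr fun x => iUnion_congr fun y => image_congr fun k _ => Prod.ext ?_ ?_ <;> simp only <;> ring

lemma op_mono (σ : Sch) {K L : Set (ℝ × ℝ)} (h : K ⊆ L) : σ.op K ⊆ σ.op L :=
  iUnion_mono fun _ => image_mono h

lemma op_compact (σ : Sch) {K : Set (ℝ × ℝ)} (h : IsCompact K) : IsCompact (σ.op K) :=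
  isCompact_iUnion fun _ => h.image (by fun_prop)

lemma pts_mono {K L : Set (ℝ × ℝ)} (h : K ⊆ L) (X : Set ℝ) : pts K X ⊆ pts L X :=
  fun _ ⟨h1, l, hl, e⟩ => ⟨h1, l, h hl, e⟩

lemma Sch.Valid.r_pos {σ : Sch} (h : σ.Valid) : 0 < σ.r := by
  have : (2 : ℝ) ≤ Fintype.card σ.ι := by exact_mod_cast h.1
  unfold Sch.r; positivity

lemma Sch.Valid.comp {σ τ : Sch} (h : σ.Valid) (h' : τ.Valid) : (σ.comp τ).Valid := by
  refine ⟨?_, ?_, fun K hK => ?_⟩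
  · have := h.1; have := h'.1
    rw [show Fintype.card (σ.comp τ).ι = _ from Fintype.card_prod σ.ι τ.ι]; nlinarith
  · rw [op_comp]; exact (op_mono _ h'.2.1).trans h.2.1
  · rw [op_comp]; exact h.2.2 _ (h'.2.2 K hK)

def piece (σ : Sch) (i : σ.ι) (S : Set (ℝ × ℝ)) : Set (ℝ × ℝ) :=
  {z | ∃ y, (z.1, y) ∈ S ∧ z.2 = σ.α i * z.1 + σ.β i + σ.r * y}

lemma mem_piece {σ : Sch} {K : Set (ℝ × ℝ)} {X : Set ℝ} {z : ℝ × ℝ} (h : z ∈ pts (σ.op K) X) :
    ∃ i, ∀ Y, z.1 ∈ Y → z ∈ piece σ i (pts K Y) := by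
  obtain ⟨-, l, hl, e⟩ := h
  obtain ⟨i, k, hk, rfl⟩ := mem_iUnion.1 hl
  exact ⟨i, fun Y hY => ⟨k.1 * z.1 + k.2, ⟨hY, k, hk, rfl⟩, by rw [e]; ring⟩⟩

lemma Sch.Valid.cov {σ : Sch} (h : σ.Valid) {K : Set (ℝ × ℝ)} {X : Set ℝ} {c : ℝ}
    (hc : Cov (pts K X) c) : Cov (pts (σ.op K) X) c := by
  refine (Cov.biUnion Finset.univ (fun i => piece σ i (pts K X)) _
    fun i _ => hc.aff _ _ _ h.r_pos).mono (fun z hz => ?_) (le_of_eq ?_)
  · obtain ⟨i, hi⟩ := mem_piece hz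
    exact mem_biUnion (Finset.mem_univ i) (hi X hz.1)
  · have : (2 : ℝ) ≤ Fintype.card σ.ι := by exact_mod_cast h.1
    simp only [Sch.r, Finset.card_univ]; field_simp

noncomputable def basic (m : ℕ) (ξ : ℝ) : Sch := ⟨Fin m, fun i => i / m, fun i => -(i / m) * ξ⟩

lemma basic_r (m : ℕ) (ξ : ℝ) : (basic m ξ).r = 1 / m := by simp [basic, Sch.r]

lemma basic_valid {m : ℕ} (hm : 2 ≤ m) {ξ : ℝ} (hξ : ξ ∈ Icc (0 : ℝ) 1) : (basic m ξ).Valid := by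
  have m2 : (2 : ℝ) ≤ m := by exact_mod_cast hm
  refine ⟨by simpa [basic] using hm, fun l hl => ?_, fun K hK a ha => ?_⟩
  · obtain ⟨i : Fin m, k, ⟨⟨k0, k1⟩, k2, k3⟩, rfl⟩ := mem_iUnion.1 hl
    have i1 : ((i : ℕ) : ℝ) + 1 ≤ m := by exact_mod_cast i.2
    have i0 : (0 : ℝ) ≤ (i : ℕ) := by positivity
    rw [basic_r]
    simp only [basic, Q, mem_prod, mem_Icc]
    have t := mul_nonneg i0 hξ.1
    have t' := mul_le_mul_of_nonneg_left hξ.2 i0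
    refine ⟨⟨by positivity, ?_⟩, ?_, ?_⟩ <;> field_simp <;> nlinarith
  · have m0 : (0 : ℝ) < m := by linarith
    obtain ⟨i, hi, h0, h1⟩ : ∃ i < m, (i : ℝ) ≤ m * a ∧ m * a ≤ i + 1 := by
      rcases ha.2.eq_or_lt with rfl | h
      · refine ⟨m - 1, by omega, ?_, ?_⟩ <;> rw [Nat.cast_sub (by omega)] <;> simp
      · have p := mul_nonneg m0.le ha.1
        exact ⟨⌊m * a⌋₊, (Nat.floor_lt p).2 (by nlinarith), Nat.floor_le p,
          (Nat.lt_floor_add_one _).le⟩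
    obtain ⟨b, hb⟩ := hK (m * a - i) ⟨by linarith, by linarith⟩
    refine ⟨_, mem_iUnion.2 ⟨(⟨i, hi⟩ : Fin m), _, hb, Prod.ext ?_ rfl⟩⟩
    rw [basic_r]; simp only [basic]; field_simp; ring

lemma basic_cov {m : ℕ} (hm : 2 ≤ m) {ξ : ℝ} (h0 : 0 ≤ ξ) (h1 : ξ + 1 / m ≤ 1) :
    Cov (pts ((basic m ξ).op Q) (Icc ξ (ξ + 1 / m))) (4 / m) := by
  have m2 : (2 : ℝ) ≤ m := by exact_mod_cast hm
  refine (Cov.single 0 0 (4 / m) (by positivity)).mono (fun z hz => ?_) le_rfl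
  obtain ⟨⟨x0, x1⟩, l, hl, e⟩ := hz
  obtain ⟨i : Fin m, k, ⟨⟨k0, k1⟩, k2, k3⟩, rfl⟩ := mem_iUnion.1 hl
  have i1 : ((i : ℕ) : ℝ) + 1 ≤ m := by exact_mod_cast i.2
  have i0 : (0 : ℝ) ≤ (i : ℕ) := by positivity
  rw [basic_r] at e
  simp only [basic] at e
  have e2 : z.2 = ((i : ℕ) * (z.1 - ξ) + k.1 * z.1 + k.2) / m := by rw [e]; ring
  have t0 : 0 ≤ (i : ℕ) * (z.1 - ξ) := mul_nonneg i0 (by linarith)
  have t1 : (i : ℕ) * (z.1 - ξ) ≤ m * (1 / m : ℝ) :=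
    mul_le_mul (by linarith) (by linarith) (by linarith) (by linarith)
  rw [mul_one_div_cancel (by linarith)] at t1
  have t2 : 0 ≤ k.1 * z.1 := mul_nonneg k0 (by linarith)
  have t3 : k.1 * z.1 ≤ 1 := mul_le_one₀ k1 (by linarith) (by linarith)
  simp only [mem_ofPred_eq, zero_mul, sub_zero, e2, abs_div, Nat.abs_cast]
  gcongr
  rw [abs_le]; constructor <;> linarith

lemma bush {N : ℕ} (hN : 2 ≤ N) (P : ℕ) (hP : P ≤ N) : ∃ σ : Sch, σ.Valid ∧ ∀ p < P,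
    Cov (pts (σ.op Q) (Icc (p / N) (p / N + 1 / N))) (4 / N) := by
  have m2 : (2 : ℝ) ≤ N := by exact_mod_cast hN
  induction P with
  | zero => exact ⟨basic N 0, basic_valid hN (by simp), by simp⟩
  | succ P ih =>
    obtain ⟨σ, hσ, h⟩ := ih (by omega)
    have p1 : (P : ℝ) + 1 ≤ N := by exact_mod_cast hP
    have q : (P : ℝ) / N + 1 / N ≤ 1 := by rw [← add_div, div_le_one (by linarith)]; exact p1
    have hb := basic_valid hN (ξ := P / N) ⟨by positivity, by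
      have : (0 : ℝ) < 1 / N := by positivity
      linarith⟩
    refine ⟨σ.comp (basic N (P / N)), hσ.comp hb, fun p hp => ?_⟩
    rw [op_comp]
    rcases (Nat.lt_succ_iff.1 hp).eq_or_lt with rfl | hp
    · exact hσ.cov (basic_cov hN (by positivity) q)
    · exact (h p hp).mono (pts_mono (op_mono _ hb.2.1) _) le_rfl

lemma cell {N : ℕ} (hN : 2 ≤ N) {x : ℝ} (hx : x ∈ Icc (0 : ℝ) 1) :
    ∃ p < N, x ∈ Icc ((p : ℝ) / N) (p / N + 1 / N) := by
  have m0 : (0 : ℝ) < N := by exact_mod_cast (by omega : 0 < N)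
  rcases hx.2.eq_or_lt with rfl | h
  · refine ⟨N - 1, by omega, ?_⟩
    rw [Nat.cast_sub (by omega), ← add_div]
    exact ⟨by rw [div_le_one m0]; simp, by rw [le_div_iff₀ m0]; simp⟩
  · have p := mul_nonneg hx.1 m0.le
    refine ⟨⌊x * N⌋₊, (Nat.floor_lt p).2 (by nlinarith), ?_⟩
    rw [← add_div]
    exact ⟨(div_le_iff₀ m0).2 (Nat.floor_le p), (le_div_iff₀ m0).2 (Nat.lt_floor_add_one _).le⟩

lemma main (s : ℕ) (hs : 1 ≤ s) : ∃ σ : Sch, σ.Valid ∧ Cov (pts (σ.op Q) (Icc 0 1)) (13 / s) := by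
  have s1 : (1 : ℝ) ≤ s := by exact_mod_cast hs
  have hN : 2 ≤ 8 * s ^ 3 := by nlinarith [Nat.one_le_pow 3 s hs]
  obtain ⟨σ, hσ, h⟩ := bush hN _ le_rfl
  obtain ⟨τ, hτ, h'⟩ := bush hσ.1 _ le_rfl
  set n := Fintype.card σ.ι with hn
  have n2 : (2 : ℝ) ≤ n := by exact_mod_cast hσ.1
  have hr : σ.r = 1 / n := rfl
  have r0 := hσ.r_pos
  have gx : ∀ p : Fin n, ((p : ℕ) : ℝ) / n ∈ Icc (0 : ℝ) 1 := fun p =>
    ⟨by positivity, (div_le_one (by linarith)).2 (by exact_mod_cast p.2.le)⟩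
  obtain ⟨J, U, hJ, hU, hc⟩ := comb (G := Fin n)
    (fun p i => ⌊(σ.α i * ((p : ℕ) / n) + σ.β i) / σ.r⌋) s (by linarith)
    (by rw [Fintype.card_fin]; have := hσ.1; omega) (fun p => by
      obtain ⟨P, hP, hx⟩ := cell hN (gx p)
      have := (h P hP).count ((p : ℕ) / n) σ.r r0 (Finset.univ.image
        fun i => ⌊(σ.α i * ((p : ℕ) / n) + σ.β i) / σ.r⌋) (fun k hk y hy => by
          obtain ⟨i, -, rfl⟩ := Finset.mem_image.1 hk
          set v := σ.α i * ((p : ℕ) / n) + σ.β i with hv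
          have f1 := (le_div_iff₀ r0).1 (Int.floor_le (v / σ.r))
          have f2 := (div_lt_iff₀ r0).1 (Int.lt_floor_add_one (v / σ.r))
          refine ⟨hx, _, mem_iUnion.2 ⟨i, (0, (y - v) / σ.r), ⟨by simp, ?_, ?_⟩, rfl⟩, ?_⟩
          · rw [le_div_iff₀ r0]; nlinarith [hy.1]
          · rw [div_le_iff₀ r0]; nlinarith [hy.2]
          · simp only [mul_zero, add_zero]; rw [mul_div_cancel₀ _ r0.ne', hv]; ring)
      generalize ((Finset.card _ : ℕ) : ℝ) = c at this ⊢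
      rw [hr] at this
      push_cast at this
      rw [le_div_iff₀ (by positivity), ← hn]
      field_simp at this
      linarith)
  refine ⟨σ.comp τ, hσ.comp hτ, ((Cov.biUnion J _ _ fun j _ =>
    Cov.single (σ.α j) (σ.β j) (5 * σ.r) (by positivity)).union (Cov.biUnion U (fun x => piece σ x.1
      (pts (τ.op Q) (Icc ((x.2 : ℕ) / n) ((x.2 : ℕ) / n + 1 / n)))) _ fun x _ =>
      (h' x.2 x.2.2).aff _ _ _ r0)).mono (fun z hz => ?_) ?_⟩
  · rw [op_comp] at hz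
    obtain ⟨i, hi⟩ := mem_piece hz
    obtain ⟨p, hp, hx⟩ := cell hσ.1 hz.1
    rcases hc i ⟨p, hp⟩ with hu | ⟨j, hj, e⟩
    · exact Or.inr (mem_biUnion hu (hi _ hx))
    refine Or.inl (mem_biUnion hj ?_)
    obtain ⟨y, ⟨-, l, hl, e1⟩, e2⟩ := hi _ hx
    obtain ⟨⟨l0, l1⟩, l2, l3⟩ := hτ.2.1 hl
    have al : ∀ i, σ.α i ∈ Icc (0 : ℝ) 1 := fun i => by
      simpa using (hσ.2.1 (mem_iUnion.2 ⟨i, (0, 0), ⟨by simp, by simp⟩, rfl⟩)).1
    have e3 := Int.abs_sub_lt_one_of_floor_eq_floor e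
    rw [← sub_div, abs_div, abs_of_pos r0, div_lt_one r0, abs_lt] at e3
    simp only at e1 e3
    have y1 : |y| ≤ 3 := by
      rw [e1, abs_le]
      have := mul_nonneg l0 hz.1.1
      have := mul_le_one₀ l1 hz.1.1 hz.1.2
      constructor <;> linarith
    have y2 := abs_le.1 ((abs_mul σ.r y).le.trans
      (mul_le_mul (abs_of_pos r0).le y1 (abs_nonneg _) r0.le))
    have d : |(σ.α i - σ.α j) * (z.1 - p / n)| ≤ 1 * σ.r := by
      rw [abs_mul]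
      refine mul_le_mul ?_ ?_ (abs_nonneg _) zero_le_one <;> rw [abs_le]
      · constructor <;> linarith [(al i).1, (al i).2, (al j).1, (al j).2]
      · rw [← hr] at hx; constructor <;> linarith [hx.1, hx.2]
    rw [abs_le] at d
    simp only [mem_ofPred_eq, e2, abs_le]
    constructor <;> nlinarith
  · rw [Fintype.card_fin] at hU
    calc _ ≤ n / s * (5 * σ.r) + 2 * n * n / s * (σ.r * (4 / n)) := by gcongr
      _ = 13 / s := by rw [hr]; field_simp; ring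

lemma lim : ∃ K ⊆ Q, Full K ∧ ∀ ε > 0, Cov (pts K (Icc 0 1)) ε := by
  choose σ hσ h using fun s : ℕ => main (s + 1) (by omega)
  let τ : ℕ → Sch := fun j => Nat.rec (σ 0) (fun j t => t.comp (σ (j + 1))) j
  have tv : ∀ j, (τ j).Valid ∧ Cov (pts ((τ j).op Q) (Icc 0 1)) (13 / (j + 1 : ℕ)) := fun j => by
    induction j with
    | zero => exact ⟨hσ 0, h 0⟩
    | succ j ih =>
      refine ⟨ih.1.comp (hσ _), ?_⟩
      rw [show τ (j + 1) = (τ j).comp (σ (j + 1)) from rfl, op_comp]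
      exact ih.1.cov (h _)
  have cq : IsCompact Q := isCompact_Icc.prod isCompact_Icc
  refine ⟨⋂ j, (τ j).op Q, (iInter_subset _ 0).trans (tv 0).1.2.1, fun a ha => ?_, fun ε hε => ?_⟩
  · obtain ⟨l, hl⟩ := IsCompact.nonempty_iInter_of_sequence_nonempty_isCompact_isClosed
      (fun j => (τ j).op Q ∩ {l | l.1 = a}) (fun j => inter_subset_inter_left _ (by
        rw [show τ (j + 1) = (τ j).comp (σ (j + 1)) from rfl, op_comp]
        exact op_mono _ (hσ _).2.1)) (fun j => by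
        obtain ⟨b, hb⟩ := (tv j).1.2.2 Q (fun a ha => ⟨0, ha, by simp⟩) a ha
        exact ⟨(a, b), hb, rfl⟩)
      ((op_compact _ cq).inter_right (isClosed_eq continuous_fst continuous_const))
      (fun j => (op_compact _ cq).isClosed.inter (isClosed_eq continuous_fst continuous_const))
    rw [mem_iInter] at hl
    exact ⟨l.2, mem_iInter.2 fun j => by rw [← show l.1 = a from (hl 0).2]; exact (hl j).1⟩
  · obtain ⟨j, hj⟩ := exists_nat_gt (13 / ε)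
    refine (tv j).2.mono (pts_mono (iInter_subset _ j) _) ?_
    rw [div_lt_iff₀ hε] at hj
    rw [div_le_iff₀ (by positivity)]
    push_cast; nlinarith

end Pool.Agent.H.MP_6b55e5_an
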