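import Pool.Agent.H.MP_6b55e5_an.B

set_option autoImplicit false
open Set Filter Topology MeasureTheory

namespace Pool.Agent.H.MP_6b55e5_an

abbrev E := EuclideanSpace ℝ (Fin 2)

lemma null {S : Set (ℝ × ℝ)} (hS : ∀ z ∈ S, z.1 ∈ Icc (0 : ℝ) 1) (h : ∀ ε > 0, Cov S ε) :
    volume S = 0 := by
  refine le_antisymm (ENNReal.le_of_forall_pos_le_add fun ε hε _ => ?_) zero_le
  obtain ⟨κ, _, a, b, w, h0, h1, h2⟩ := h (ε / 2) (by positivity)
  have e : ∀ k, volume {z : ℝ × ℝ | z.1 ∈ Icc (0 : ℝ) 1 ∧ |z.2 - a k * z.1 - b k| ≤ w k} ≤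
      ENNReal.ofReal (2 * w k) := fun k => by
    have ms : MeasurableSet {z : ℝ × ℝ | z.1 ∈ Icc (0 : ℝ) 1 ∧ |z.2 - a k * z.1 - b k| ≤ w k} :=
      (measurableSet_Icc.preimage measurable_fst).inter
        (measurableSet_le (f := fun z : ℝ × ℝ => |z.2 - a k * z.1 - b k|) (g := fun _ => w k)
          (by fun_prop) (by fun_prop))
    rw [Measure.volume_eq_prod, Measure.prod_apply ms]
    calc _ ≤ ∫⁻ x, (Icc (0 : ℝ) 1).indicator (fun _ => ENNReal.ofReal (2 * w k)) x := by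
          refine lintegral_mono fun x => ?_
          by_cases hx : x ∈ Icc (0 : ℝ) 1
          · rw [indicator_of_mem hx, show 2 * w k = a k * x + b k + w k - (a k * x + b k - w k) by ring,
              ← Real.volume_Icc]
            refine measure_mono fun y hy => ?_
            have := abs_le.1 hy.2
            exact ⟨by linarith [this.1], by linarith [this.2]⟩
          · exact (measure_mono_null (t := ∅) (fun y hy => hx hy.1) measure_empty).le.trans zero_le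
      _ = _ := by simp
  calc volume S ≤ volume (⋃ k, {z : ℝ × ℝ | z.1 ∈ Icc (0 : ℝ) 1 ∧ |z.2 - a k * z.1 - b k| ≤ w k}) :=
        measure_mono fun z hz => (h2 z hz).elim fun k hk => mem_iUnion.2 ⟨k, hS z hz, hk⟩
    _ ≤ ∑ k, ENNReal.ofReal (2 * w k) :=
        (measure_iUnion_fintype_le _ _).trans (Finset.sum_le_sum fun k _ => e k)
    _ ≤ 0 + ε := by
        rw [← ENNReal.ofReal_sum_of_nonneg fun k _ => by linarith [h0 k], zero_add,
          ← ENNReal.ofReal_coe_nnreal, ← Finset.mul_sum]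
        exact ENNReal.ofReal_le_ofReal (by linarith)

def phi (t : Bool × Bool) (z : E) : ℝ × ℝ :=
  (if t.1 then z 0 else z 1, (if t.2 then 1 else -1) * if t.1 then z 1 else z 0)

lemma phi_mp (t : Bool × Bool) : MeasurePreserving (phi t) := by
  have h0 : MeasurePreserving fun z : E => (z 0, z 1) :=
    (volume_preserving_finTwoArrow ℝ).comp (PiLp.volume_preserving_ofLp (Fin 2))
  have h1 : MeasurePreserving (Prod.swap : ℝ × ℝ → ℝ × ℝ) := Measure.measurePreserving_swap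
  have h2 : MeasurePreserving (Prod.map id Neg.neg : ℝ × ℝ → ℝ × ℝ) :=
    (MeasurePreserving.id _).prod (Measure.measurePreserving_neg _)
  obtain ⟨_ | _, _ | _⟩ := t
  · convert h2.comp (h1.comp h0) using 1; ext z <;> simp [phi]
  · convert h1.comp h0 using 1; ext z <;> simp [phi]
  · convert h2.comp h0 using 1; ext z <;> simp [phi]
  · convert h0 using 1; ext z <;> simp [phi]

lemma normal (t : Bool × Bool) (a : ℝ) : ∃ (ν : E) (ρ : ℝ), ‖ν‖ = 1 ∧ 1 ≤ ρ ∧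
    ∀ z, (phi t z).2 - a * (phi t z).1 = ρ * inner ℝ ν z := by
  have key : ∀ p q : ℝ, p ^ 2 + q ^ 2 = 1 + a ^ 2 → ∃ (ν : E) (ρ : ℝ), ‖ν‖ = 1 ∧ 1 ≤ ρ ∧
      ∀ z : E, p * z 0 + q * z 1 = ρ * inner ℝ ν z := fun p q h => by
    have n : ‖(!₂[p, q] : E)‖ ^ 2 = 1 + a ^ 2 := by
      rw [EuclideanSpace.norm_sq_eq]; simp [h]
    have n1 : 1 ≤ ‖(!₂[p, q] : E)‖ := by nlinarith [norm_nonneg (!₂[p, q] : E), sq_nonneg a]
    refine ⟨‖(!₂[p, q] : E)‖⁻¹ • !₂[p, q], _, norm_smul_inv_norm (by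
      intro e; rw [e, norm_zero] at n1; linarith), n1, fun z => ?_⟩
    rw [inner_smul_left, conj_trivial, mul_inv_cancel_left₀ (by linarith)]
    simp [PiLp.inner_apply, mul_comm]
  obtain ⟨_ | _, _ | _⟩ := t
  · obtain ⟨ν, ρ, h1, h2, h⟩ := key (-1) (-a) (by ring)
    exact ⟨ν, ρ, h1, h2, fun z => by rw [← h]; simp [phi]; ring⟩
  · obtain ⟨ν, ρ, h1, h2, h⟩ := key 1 (-a) (by ring)
    exact ⟨ν, ρ, h1, h2, fun z => by rw [← h]; simp [phi]; ring⟩
  · obtain ⟨ν, ρ, h1, h2, h⟩ := key (-a) (-1) (by ring)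
    exact ⟨ν, ρ, h1, h2, fun z => by rw [← h]; simp [phi]; ring⟩
  · obtain ⟨ν, ρ, h1, h2, h⟩ := key (-a) 1 (by ring)
    exact ⟨ν, ρ, h1, h2, fun z => by rw [← h]; simp [phi]; ring⟩

lemma strips {S : Set (ℝ × ℝ)} (h : ∀ ε > 0, Cov S ε) (ε : ℝ) (hε : 0 < ε) :
    ∃ (n : ℕ) (ν : Fin n → E) (c w : Fin n → ℝ), (∀ i, ‖ν i‖ = 1 ∧ 0 < w i) ∧ ∑ i, w i < ε ∧
      (⋃ t, phi t ⁻¹' S) ⊆ ⋃ i, {z | c i ≤ inner ℝ (ν i) z ∧ inner ℝ (ν i) z ≤ c i + w i} := by
  obtain ⟨κ, _, a, b, w, h0, h1, h2⟩ := h (ε / 9) (by positivity)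
  choose ν ρ hν hρ e using normal
  let q := (Fintype.equivFin ((Bool × Bool) × κ)).symm
  refine ⟨_, fun i => ν (q i).1 (a (q i).2), fun i => b (q i).2 / ρ (q i).1 (a (q i).2) - w (q i).2,
    fun i => 2 * w (q i).2, fun i => ⟨hν _ _, by linarith [h0 (q i).2]⟩, ?_, fun z hz => ?_⟩
  · rw [q.sum_comp (fun x => 2 * w x.2), Fintype.sum_prod_type]
    simp only [← Finset.mul_sum, Finset.sum_const, Finset.card_univ, Fintype.card_prod,
      Fintype.card_bool, nsmul_eq_mul]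
    push_cast; linarith
  · obtain ⟨t, ht⟩ := mem_iUnion.1 hz
    obtain ⟨k, hk⟩ := h2 _ ht
    refine mem_iUnion.2 ⟨q.symm (t, k), ?_⟩
    simp only [Equiv.apply_symm_apply, mem_ofPred_eq]
    have r1 := hρ t (a k)
    have : |inner ℝ (ν t (a k)) z - b k / ρ t (a k)| ≤ w k := by
      rw [e] at hk
      rw [show inner ℝ (ν t (a k)) z - b k / ρ t (a k) = (ρ t (a k) * inner ℝ (ν t (a k)) z - b k) /
        ρ t (a k) by field_simp, abs_div, abs_of_pos (by linarith : 0 < ρ t (a k))]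
      exact (div_le_self (abs_nonneg _) r1).trans hk
    rw [abs_le] at this
    exact ⟨by linarith [this.1], by linarith [this.2]⟩

lemma seg {K : Set (ℝ × ℝ)} (hK : Full K) {s t : ℝ} (h1 : |s| ≤ 1) (h2 : |t| ≤ |s|) (h3 : 0 ≤ s * t)
    (h4 : s ≠ 0) : ∃ p q : ℝ, ∀ τ ∈ Icc (0 : ℝ) 1, (p + τ * s, q + τ * t) ∈ pts K (Icc 0 1) := by
  obtain ⟨b, hb⟩ := hK (t / s) ⟨by
    rw [show t / s = s * t / s ^ 2 by field_simp]; positivity,
    (le_abs_self _).trans (by rw [abs_div]; exact div_le_one_of_le₀ h2 (abs_nonneg _))⟩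
  rw [abs_le] at h1
  rcases le_total 0 s with h | h
  · exact ⟨0, b, fun τ hτ => ⟨⟨by nlinarith [hτ.1], by nlinarith [hτ.1, hτ.2]⟩, _, hb, by
      simp only; field_simp; ring⟩⟩
  · exact ⟨1, t / s + b, fun τ hτ => ⟨⟨by nlinarith [hτ.1, hτ.2], by nlinarith [hτ.1]⟩, _, hb, by
      simp only; field_simp; ring⟩⟩

lemma segs {K : Set (ℝ × ℝ)} (hK : Full K) (e : E) (he : ‖e‖ = 1) :
    ∃ p, segment ℝ p (p + e) ⊆ ⋃ t, phi t ⁻¹' pts K (Icc 0 1) := by
  have n : e 0 ^ 2 + e 1 ^ 2 = 1 := by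
    have := EuclideanSpace.norm_sq_eq e
    rw [he] at this; simpa using this.symm
  have b0 : |e 0| ≤ 1 := abs_le_one_iff_mul_self_le_one.2 (by nlinarith [sq_nonneg (e 1)])
  have b1 : |e 1| ≤ 1 := abs_le_one_iff_mul_self_le_one.2 (by nlinarith [sq_nonneg (e 0)])
  have fin : ∀ (t : Bool × Bool) (P : ℝ → ℝ → E), (∀ p q τ, phi t (P p q + τ • e) =
      (p + τ * (phi t e).1, q + τ * (phi t e).2)) → |(phi t e).1| ≤ 1 → |(phi t e).2| ≤ |(phi t e).1| →
      0 ≤ (phi t e).1 * (phi t e).2 → (phi t e).1 ≠ 0 →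
      ∃ p, segment ℝ p (p + e) ⊆ ⋃ t, phi t ⁻¹' pts K (Icc 0 1) := fun t P hP h1 h2 h3 h4 => by
    obtain ⟨p, q, h⟩ := seg hK h1 h2 h3 h4
    refine ⟨P p q, ?_⟩
    rw [segment_eq_image']
    rintro _ ⟨τ, hτ, rfl⟩
    refine mem_iUnion.2 ⟨t, ?_⟩
    simp only [add_sub_cancel_left, mem_preimage, hP]
    exact h τ hτ
  rcases le_total |e 1| |e 0| with h | h
  · have h4 : e 0 ≠ 0 := fun z => by
      rw [z, abs_zero, abs_nonpos_iff] at h; rw [z, h] at n; simp at n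
    rcases le_total 0 (e 0 * e 1) with h' | h'
    · exact fin (true, true) (fun p q => !₂[p, q]) (by simp [phi]) b0 (by simpa [phi] using h)
        (by simpa [phi] using h') h4
    · exact fin (true, false) (fun p q => !₂[p, -q]) (by simp [phi, add_comm]) b0
        (by simpa [phi] using h) (by simpa [phi] using h') h4
  · have h4 : e 1 ≠ 0 := fun z => by
      rw [z, abs_zero, abs_nonpos_iff] at h; rw [z, h] at n; simp at n
    rcases le_total 0 (e 1 * e 0) with h' | h'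
    · exact fin (false, true) (fun p q => !₂[q, p]) (by simp [phi]) b1 (by simpa [phi] using h)
        (by simpa [phi] using h') h4
    · exact fin (false, false) (fun p q => !₂[-q, p]) (by simp [phi, add_comm]) b1
        (by simpa [phi] using h) (by simpa [phi] using h') h4

lemma bdd {K : Set (ℝ × ℝ)} (hK : K ⊆ Q) :
    Bornology.IsBounded (⋃ t, phi t ⁻¹' pts K (Icc 0 1)) := by
  refine isBounded_iff_forall_norm_le.2 ⟨√10, fun z hz => ?_⟩
  obtain ⟨t, ⟨x0, x1⟩, l, hl, e⟩ := mem_iUnion.1 hz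
  obtain ⟨⟨l0, l1⟩, l2, l3⟩ := hK hl
  have := mul_nonneg l0 x0
  have := mul_le_one₀ l1 x0 x1
  have y : (phi t z).2 ^ 2 ≤ 9 := by rw [e]; nlinarith
  have x : (phi t z).1 ^ 2 ≤ 1 := by nlinarith
  rw [EuclideanSpace.norm_eq, Fin.sum_univ_two]
  refine Real.sqrt_le_sqrt ?_
  obtain ⟨_ | _, _ | _⟩ := t <;> simp [phi, -sq_le_one_iff_abs_le_one] at x y ⊢ <;> linarith

end Pool.Agent.H.MP_6b55e5_an
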